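import Pool.Agent.helper19.AR.Defs2
import Pool.Agent.helper63.AR.CO
import Pool.Agent.helper99.AR.PR

/-! AR project (MP_962e14_co), module PC: the process applied to a core. -/

namespace Pool.Agent.helper19.AR

theorem PC_dag {α β : Type} {r : ℕ} {S : Sys α β} {Z : Finset α} {R : Finset β} {st : α → β}
    {out : α → Finset α} {rk : α → ℕ} (h : Core r S Z R st out rk) : Dag r S.V Z out rk where
  Z_sub := h.Z_sub
  out_sub := h.out_sub
  out_card := h.out_card
  rk_inj := h.rk_inj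
  rk_lt := h.rk_lt

theorem PC_mem_col {α β : Type} {S : Sys α β} {A : Finset α} {a : β} :
    a ∈ col S A ↔ a ∈ S.C ∧ ∃ e ∈ S.E a, ∀ x ∈ e, x ∈ A := by
  unfold col
  simp

theorem PC (r K T : ℕ) (hr : 2 ≤ r) (hK : 1 ≤ K) (hT : 1 ≤ T) : ∃ n0 : ℕ, ∀ (α β : Type)
    [DecidableEq α] [DecidableEq β] (S : Sys α β) (ℓ : ℕ), Good r S → Sparse S ℓ →
    S.V.card ≤ r * ℓ → n0 ≤ S.V.card →
    ∃ (Z : Finset α) (R : Finset β) (st : α → β) (out : α → Finset α) (rk : α → ℕ)
      (Y : Finset α) (d : α → ℕ) (Ec : α → Finset α),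
      Core r S Z R st out rk ∧ T * Z.card ≤ S.V.card ∧ Proc K S.V Z out Y d Ec ∧
      ℓ + 1 ≤ ∑ y ∈ Y, d y + (4 * K + 1) * Z.card := by
  obtain ⟨n0, h⟩ := CO r T hr hT
  refine ⟨n0, ?_⟩
  intro α β _ _ S ℓ hG hS hℓ hn
  obtain ⟨Z, R, st, out, rk, hC, hTZ⟩ := h α β S ℓ hG hS hℓ hn
  have hD := PC_dag hC
  -- one edge for every colour of `R`
  have hedge : ∀ a : β, ∃ e : Sym2 α, a ∈ R → e ∈ S.E a := by
    intro a
    by_cases ha : a ∈ R
    · have h1 := (hG.2 a (hC.R_sub ha)).1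
      have h2 : (S.E a).Nonempty := by
        rw [← Finset.card_pos, h1]; omega
      obtain ⟨e, he⟩ := h2
      exact ⟨e, fun _ => he⟩
    · by_cases hne : Nonempty (Sym2 α)
      · exact ⟨hne.some, fun h => absurd h ha⟩
      · exfalso
        obtain ⟨z, -⟩ := hC.Z_ne
        exact hne ⟨s(z, z)⟩
  choose f hf using hedge
  set X : Finset α := R.biUnion (fun a => (f a).toFinset) with hX
  have hmemX : ∀ a ∈ R, ∀ x ∈ f a, x ∈ X := by
    intro a ha x hx
    rw [hX, Finset.mem_biUnion]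
    exact ⟨a, ha, by rwa [Sym2.mem_toFinset]⟩
  have hXV : X ⊆ S.V := by
    intro x hx
    rw [hX, Finset.mem_biUnion] at hx
    obtain ⟨a, ha, hxa⟩ := hx
    rw [Sym2.mem_toFinset] at hxa
    exact ((hG.2 a (hC.R_sub ha)).2 (f a) (hf a ha)).2 x hxa
  have hXc : X.card ≤ 2 * Z.card := by
    rw [← hC.R_card]
    calc X.card ≤ ∑ a ∈ R, ((f a).toFinset).card := Finset.card_biUnion_le
      _ ≤ ∑ _a ∈ R, 2 := by
        refine Finset.sum_le_sum fun a _ => ?_
        by_cases hd : (f a).IsDiag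
        · rw [Sym2.card_toFinset_of_isDiag _ hd]; omega
        · rw [Sym2.card_toFinset_of_not_isDiag _ hd]
      _ = 2 * R.card := by rw [Finset.sum_const, smul_eq_mul]; ring
  obtain ⟨F, Y, d, Ec, hF, hXF, hFo, hP, hFc⟩ := PR r (by omega) S.V Z out rk hD X hXV K hK
  refine ⟨Z, R, st, out, rk, Y, d, Ec, hC, hTZ, hP, ?_⟩
  -- the violating set
  have hAV : F ∪ Z ⊆ S.V := by
    intro x hx
    rcases Finset.mem_union.1 hx with hx | hx
    · exact (hF x hx).1
    · exact hC.Z_sub hx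
  have hAne : (F ∪ Z).Nonempty := hC.Z_ne.mono Finset.subset_union_right
  have hdisj : Disjoint (F.image st) R := by
    rw [Finset.disjoint_left]
    intro a ha haR
    obtain ⟨v, hv, rfl⟩ := Finset.mem_image.1 ha
    exact (hC.st_mem v (hF v hv).1 (hF v hv).2).2 haR
  have hsub : F.image st ∪ R ⊆ col S (F ∪ Z) := by
    intro a ha
    rw [PC_mem_col]
    rcases Finset.mem_union.1 ha with ha | ha
    · obtain ⟨v, hv, rfl⟩ := Finset.mem_image.1 ha
      obtain ⟨hvV, hvZ⟩ := hF v hv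
      refine ⟨(hC.st_mem v hvV hvZ).1, ?_⟩
      obtain ⟨w, hw, hwF⟩ := hFo v hv
      refine ⟨s(v, w), (hC.out_E v hvV hvZ _).2 ⟨w, hw, rfl⟩, ?_⟩
      intro x hx
      rcases Sym2.mem_iff.1 hx with rfl | rfl
      · exact Finset.mem_union_left _ hv
      · exact Finset.mem_union.2 hwF
    · refine ⟨hC.R_sub ha, f a, hf a ha, ?_⟩
      intro x hx
      exact Finset.mem_union.2 (hXF x (hmemX a ha x hx))
  have hcolc : F.card + Z.card ≤ (col S (F ∪ Z)).card := by
    refine le_trans ?_ (Finset.card_le_card hsub)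
    rw [Finset.card_union_of_disjoint hdisj, hC.R_card, Finset.card_image_of_injOn]
    intro v hv w hw hvw
    exact hC.st_inj v (hF v hv).1 (hF v hv).2 w (hF w hw).1 (hF w hw).2 hvw
  have hAc : (F ∪ Z).card ≤ F.card + Z.card := Finset.card_union_le _ _
  have hlt : ℓ < (F ∪ Z).card := by
    by_contra hle
    have := hS (F ∪ Z) hAV hAne (by omega)
    omega
  have hfil : (X.filter fun x => x ∉ Z).card ≤ 2 * Z.card :=
    (Finset.card_filter_le _ _).trans hXc
  have h5 : 2 * K * (X.filter fun x => x ∉ Z).card ≤ 2 * K * (2 * Z.card) :=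
    Nat.mul_le_mul_left _ hfil
  have h6 : (4 * K + 1) * Z.card = 2 * K * (2 * Z.card) + Z.card := by ring
  omega

end Pool.Agent.helper19.AR
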