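import Pool.Agent.helper19.AR.Defs2
import Pool.Agent.helper52.AR.PDm
import Pool.Agent.helper35.AR.PDe
import Pool.Agent.helper35.AR.PDr
import Pool.Agent.helper36.AR.PDs

/-! AR project (MP_962e14_co), module PD: making a strand perfect keeps the system sparse. -/

namespace Pool.Agent.helper19.AR

theorem PD_mem_col {α β : Type} {S : Sys α β} {A : Finset α} {a : β} :
    a ∈ col S A ↔ a ∈ S.C ∧ ∃ e ∈ S.E a, ∀ x ∈ e, x ∈ A := by
  unfold col
  simp

theorem PD_mem_PN {α : Type} {r : ℕ} {v : ℕ → ℕ → α} {j i : ℕ} {w : α} (h : w ∈ PN r v j i) :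
    (∃ i', i < i' ∧ i' < r ∧ w = v j i') ∨ (∃ i', i' ≤ i ∧ w = v (j + 1) i') := by
  unfold PN at h
  simp only [Finset.mem_union, Finset.mem_image, Finset.mem_Ioo, Finset.mem_range] at h
  rcases h with ⟨i', ⟨h1, h2⟩, rfl⟩ | ⟨i', h1, rfl⟩
  · exact Or.inl ⟨i', h1, h2, rfl⟩
  · exact Or.inr ⟨i', by omega, rfl⟩

/-- number of elements of `B` in the layer `a` -/
def PD_T {α : Type} [DecidableEq α] (r : ℕ) (v : ℕ → ℕ → α) (B : Finset α) (a : ℕ) : ℕ :=
  ((Finset.range r).filter fun i => v a i ∈ B).card

theorem PD_T_pos {α : Type} [DecidableEq α] {r : ℕ} {v : ℕ → ℕ → α} {B : Finset α} {a : ℕ} :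
    1 ≤ PD_T r v B a ↔ ∃ i < r, v a i ∈ B := by
  unfold PD_T
  rw [Nat.succ_le_iff, Finset.card_pos]
  constructor
  · rintro ⟨i, hi⟩
    rw [Finset.mem_filter, Finset.mem_range] at hi
    exact ⟨i, hi⟩
  · rintro ⟨i, hi⟩
    exact ⟨i, by rw [Finset.mem_filter, Finset.mem_range]; exact hi⟩

theorem PD_T_one {α : Type} [DecidableEq α] {r : ℕ} {v : ℕ → ℕ → α} {B : Finset α} {a : ℕ}
    (h : PD_T r v B a = 1) : ∃ i, i < r ∧ v a i ∈ B ∧ ∀ i' < r, v a i' ∈ B → i' = i := by
  unfold PD_T at h
  rw [Finset.card_eq_one] at h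
  obtain ⟨i, hi⟩ := h
  have h1 : i ∈ (Finset.range r).filter fun i => v a i ∈ B := by rw [hi]; simp
  rw [Finset.mem_filter, Finset.mem_range] at h1
  refine ⟨i, h1.1, h1.2, ?_⟩
  intro i' hi' hB
  have h2 : i' ∈ (Finset.range r).filter fun i => v a i ∈ B := by
    rw [Finset.mem_filter, Finset.mem_range]; exact ⟨hi', hB⟩
  rw [hi] at h2
  exact Finset.mem_singleton.1 h2

theorem PD_mem_segm {α : Type} [DecidableEq α] {r : ℕ} {v : ℕ → ℕ → α} {j q : ℕ} {x : α} :
    x ∈ segm r v j q ↔ ∃ a i, j ≤ a ∧ a < q ∧ i < r ∧ x = v a i := by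
  unfold segm
  rw [Finset.mem_image]
  constructor
  · rintro ⟨⟨a, i⟩, h, rfl⟩
    rw [Finset.mem_product, Finset.mem_Ico, Finset.mem_range] at h
    exact ⟨a, i, h.1.1, h.1.2, h.2, rfl⟩
  · rintro ⟨a, i, h1, h2, h3, rfl⟩
    exact ⟨(a, i), by rw [Finset.mem_product, Finset.mem_Ico, Finset.mem_range]; exact ⟨⟨h1, h2⟩, h3⟩, rfl⟩

theorem PD_count {α : Type} [DecidableEq α] {r M j q : ℕ} {v : ℕ → ℕ → α} {B : Finset α}
    (hq : q ≤ M)
    (hv : ∀ j ≤ M, ∀ i < r, ∀ j' ≤ M, ∀ i' < r, v j i = v j' i' → j = j' ∧ i = i') :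
    ∑ a ∈ Finset.Ico j q, PD_T r v B a ≤ (B ∩ segm r v j q).card := by
  have h1 : (((Finset.Ico j q ×ˢ Finset.range r).filter fun x => v x.1 x.2 ∈ B).image
      (fun x => v x.1 x.2)) ⊆ B ∩ segm r v j q := by
    intro x hx
    rw [Finset.mem_image] at hx
    obtain ⟨⟨a, i⟩, hai, rfl⟩ := hx
    rw [Finset.mem_filter, Finset.mem_product, Finset.mem_Ico, Finset.mem_range] at hai
    rw [Finset.mem_inter, PD_mem_segm]
    exact ⟨hai.2, a, i, hai.1.1.1, hai.1.1.2, hai.1.2, rfl⟩
  refine le_trans (le_of_eq ?_) (Finset.card_le_card h1)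
  rw [Finset.card_image_of_injOn]
  · rw [Finset.card_filter, Finset.sum_product]
    refine Finset.sum_congr rfl fun a _ => ?_
    unfold PD_T
    rw [Finset.card_filter]
  · rintro ⟨a, i⟩ ha ⟨a', i'⟩ ha' hh
    rw [Finset.mem_coe, Finset.mem_filter, Finset.mem_product, Finset.mem_Ico,
      Finset.mem_range] at ha ha'
    obtain ⟨e1, e2⟩ := hv a (by have := ha.1.1.2; simp only at this; omega) i ha.1.2 a'
      (by have := ha'.1.1.2; simp only at this; omega) i' ha'.1.2 hh
    rw [e1, e2]

theorem PD {α β : Type} [DecidableEq α] [DecidableEq β] (r M p q ℓ : ℕ) (hr : 2 ≤ r)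
    (hp : r ^ 2 + r + 1 ≤ p) (hpq : p < q) (hq : q < M) (S S' : Sys α β) (v : ℕ → ℕ → α)
    (c : ℕ → ℕ → β) (N : ℕ → ℕ → Finset α) (hL : Lay r M S v c N) (hM : IsMod r p q S S' v c)
    (hL' : Lay r M S' v c (fun j i => if p ≤ j ∧ j < q then PN r v j i else N j i))
    (hR : RR r p q v N) (hS : Sparse S ℓ) : Sparse S' ℓ := by
  intro A hA hAne hAl
  by_contra hcon
  rw [not_lt] at hcon
  obtain ⟨B', hB'A, hB'⟩ := PDm S' A hA hAne hcon
  have hB'l : B'.card ≤ ℓ := (Finset.card_le_card hB'A).trans hAl
  have hB'V : B' ⊆ S.V := by rw [← hM.V_eq]; exact hB'.sub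
  have hr2 : r * r = r ^ 2 := by ring
  have hrp : r ≤ p := by nlinarith
  -- the closing argument
  have close : ∀ j ≤ p, ∀ W : Finset α, W ⊆ segm r v j q → W.Nonempty →
      W.card ≤ (B' ∩ segm r v j q).card →
      ((B' \ segm r v j q) ∪ W).card ≤ (col S ((B' \ segm r v j q) ∪ W)).card ∧
      ((B' \ segm r v j q) ∪ W).card + (B' ∩ segm r v j q).card = B'.card + W.card → False := by
    intro j hj W hW hWne hWc h
    have hsub : (B' \ segm r v j q) ∪ W ⊆ S.V := by
      intro x hx
      rcases Finset.mem_union.1 hx with hx | hx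
      · exact hB'V (Finset.mem_sdiff.1 hx).1
      · obtain ⟨a, i, h1, h2, h3, rfl⟩ := PD_mem_segm.1 (hW hx)
        exact hL.v_mem a (by omega) i h3
    have hne : ((B' \ segm r v j q) ∪ W).Nonempty := hWne.mono Finset.subset_union_right
    have := hS _ hsub hne (by omega)
    omega
  obtain ⟨he1, he2⟩ := PDe r M hr S' v c _ hL' B' hB'
  have hcount := fun j => PD_count (j := j) (B := B') hq.le hL.v_inj
  by_cases hempty : ∃ j, p ≤ j ∧ j ≤ q ∧ ∀ i < r, v j i ∉ B'
  · by_cases hseg : ∃ j1, p ≤ j1 ∧ j1 < q ∧ ∃ i < r, v j1 i ∈ B'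
    · -- case 1
      classical
      set j0 := Nat.find hempty with hj0
      obtain ⟨hj0p, hj0q, hj0e⟩ := Nat.find_spec hempty
      rw [← hj0] at hj0p hj0q hj0e
      obtain ⟨j1, hj1p, hj1q, i1, hi1, hv1⟩ := hseg
      have hj1 : j1 < j0 := by
        by_contra hle
        rcases Nat.lt_or_ge j0 j1 with h | h
        · exact he1 j0 (by omega) hj0e j1 h (by omega) i1 hi1 hv1
        · have : j1 = j0 := by omega
          rw [this] at hv1
          exact hj0e i1 hi1 hv1
      have hprev : ∃ i < r, v (j0 - 1) i ∈ B' := by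
        by_contra hno
        push Not at hno
        have := Nat.find_min hempty (m := j0 - 1) (by omega)
        exact this ⟨by omega, by omega, hno⟩
      have hT2 : ∀ a < j0 - 1, 2 ≤ PD_T r v B' a :=
        he2 (j0 - 1) (by omega) (by
          have : j0 - 1 + 1 = j0 := by omega
          rw [this]; exact hj0e) hprev
      -- maximal index in the last layer
      obtain ⟨im, him, himB, himax⟩ : ∃ i < r, v (j0 - 1) i ∈ B' ∧
          ∀ i' < r, i < i' → v (j0 - 1) i' ∉ B' := by
        have hne : ((Finset.range r).filter fun i => v (j0 - 1) i ∈ B').Nonempty := by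
          obtain ⟨i, hi, hiB⟩ := hprev
          exact ⟨i, by rw [Finset.mem_filter, Finset.mem_range]; exact ⟨hi, hiB⟩⟩
        have hm := Finset.max'_mem _ hne
        rw [Finset.mem_filter, Finset.mem_range] at hm
        refine ⟨_, hm.1, hm.2, ?_⟩
        intro i' hi' hlt hB
        have := Finset.le_max' _ i' (show i' ∈ (Finset.range r).filter fun i => v (j0 - 1) i ∈ B' by
          rw [Finset.mem_filter, Finset.mem_range]; exact ⟨hi', hB⟩)
        omega
      obtain ⟨W, hW1, hW2, hW3, hW4⟩ := PDs r M r hr le_rfl (by omega) S v c N hL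
        ((Finset.range r).filter fun i => v 0 i ∈ B') (Finset.filter_subset _ _)
      have hWs : W ⊆ segm r v 0 q := by
        intro x hx
        obtain ⟨a, i, h1, h2, h3, rfl⟩ := PD_mem_segm.1 (hW1 hx)
        exact PD_mem_segm.2 ⟨a, i, h1, by omega, h3, rfl⟩
      have hj0r : r < j0 := by nlinarith
      have h0 : 2 ≤ PD_T r v B' 0 := hT2 0 (by omega)
      obtain ⟨i0, hi0, hi0B⟩ := PD_T_pos.1 (show 1 ≤ PD_T r v B' 0 by omega)
      have hWne : W.Nonempty := ⟨v 0 i0, hW2 i0 (by
        rw [Finset.mem_filter, Finset.mem_range]; exact ⟨hi0, hi0B⟩)⟩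
      have hc0 := hcount 0
      have hsum : 2 * p ≤ ∑ a ∈ Finset.Ico 0 q, PD_T r v B' a := by
        calc 2 * p = ∑ _a ∈ Finset.Ico 0 p, 2 := by simp [mul_comm]
          _ ≤ ∑ a ∈ Finset.Ico 0 p, PD_T r v B' a := by
            refine Finset.sum_le_sum fun a ha => ?_
            rw [Finset.mem_Ico] at ha
            exact hT2 a (by omega)
          _ ≤ ∑ a ∈ Finset.Ico 0 q, PD_T r v B' a :=
            Finset.sum_le_sum_of_subset (Finset.Ico_subset_Ico_right hpq.le)
      refine close 0 (by omega) W hWs hWne ?_ ?_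
      · have h5 : r * (r - 1) + r = r ^ 2 := by
          obtain ⟨s, rfl⟩ : ∃ s, r = s + 1 := ⟨r - 1, by omega⟩
          rw [Nat.add_sub_cancel]; ring
        omega
      · refine PDr r M p q 0 hr (by omega) hpq hq S S' v c N hL hM hL' B' hB'V hB'.viol W hWs
          ?_ (W.filter fun x => x = v (r - 1) (r - 1)) (Finset.filter_subset _ _) ?_
          {v (j0 - 1) im} ?_ ?_ ?_ ?_
        · intro i hi hiB
          exact hW2 i (by rw [Finset.mem_filter, Finset.mem_range]; exact ⟨hi, hiB⟩)
        · intro j' i' _ hj'q hi' hWm hnd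
          have hj'r : j' < r := by
            obtain ⟨a, i, h1, h2, h3, h4⟩ := PD_mem_segm.1 (hW1 hWm)
            have := (hL.v_inj j' (by omega) i' hi' a (by omega) i h3 h4).1
            omega
          obtain ⟨w, hw, hwW⟩ := hW4 j' i' hj'r hi' hWm (by
            intro he
            exact hnd (by rw [Finset.mem_filter]; exact ⟨hWm, he⟩))
          exact ⟨w, hw, Or.inl hwW⟩
        · rw [Finset.singleton_subset_iff]; exact himB
        · rw [Finset.singleton_subset_iff]
          exact PD_mem_segm.2 ⟨j0 - 1, im, by omega, by omega, him, rfl⟩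
        · intro j' i' _ hj'q hi' hm w hw
          rw [Finset.mem_singleton] at hm
          obtain ⟨e1, e2⟩ := hL.v_inj j' (by omega) i' hi' (j0 - 1) (by omega) im him hm
          subst e2
          rw [e1, if_pos ⟨by omega, by omega⟩] at hw
          rcases PD_mem_PN hw with ⟨i'', h1, h2, rfl⟩ | ⟨i'', h1, rfl⟩
          · exact himax i'' h2 h1
          · have : j0 - 1 + 1 = j0 := by omega
            rw [this]
            exact hj0e i'' (by omega)
        · rw [Finset.card_singleton]
          refine Finset.card_le_one.2 ?_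
          intro x hx y hy
          rw [Finset.mem_filter] at hx hy
          rw [hx.2, hy.2]
    · -- case A: nothing in the layers `p, ..., q - 1`
      push Not at hseg
      have hsub : col S' B' ⊆ col S B' := by
        intro a ha
        rw [PD_mem_col] at ha ⊢
        obtain ⟨haC, e, he, hx⟩ := ha
        rw [hM.C_eq] at haC
        by_cases hac : ∀ j, p ≤ j → j < q → ∀ i < r, a ≠ c j i
        · rw [hM.E_ne a hac] at he
          exact ⟨haC, e, he, hx⟩
        · exfalso
          push Not at hac
          obtain ⟨j, hj1, hj2, i, hi, rfl⟩ := hac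
          obtain ⟨w, hw, rfl⟩ := (hM.E_in j hj1 hj2 i hi e).1 he
          exact hseg j hj1 hj2 i hi (hx _ (Sym2.mem_mk_left _ _))
      have h1 := hS B' hB'V hB'.ne hB'l
      have h2 := Finset.card_le_card hsub
      have h3 := hB'.viol
      omega
  · -- case 2: all layers up to `q` are nonempty
    push Not at hempty
    have hne : ∀ a ≤ q, 1 ≤ PD_T r v B' a := by
      intro a ha
      rw [PD_T_pos]
      by_contra hno
      push Not at hno
      rcases Nat.lt_or_ge a p with h | h
      · obtain ⟨i, hi, hiB⟩ := hempty p le_rfl hpq.le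
        exact he1 a (by omega) hno p h (by omega) i hi hiB
      · obtain ⟨i, hi, hiB⟩ := hempty a h ha
        exact hno i hi hiB
    by_cases h2a : ∀ a ≤ p, 2 ≤ PD_T r v B' a
    · -- case 2a
      obtain ⟨W, hW1, hW2, hW3, hW4⟩ := PDs r M q hr (by omega) (by omega) S v c N hL
        ((Finset.range r).filter fun i => v 0 i ∈ B') (Finset.filter_subset _ _)
      obtain ⟨i0, hi0, hi0B⟩ := PD_T_pos.1 (hne 0 (by omega))
      have hWne : W.Nonempty := ⟨v 0 i0, hW2 i0 (by
        rw [Finset.mem_filter, Finset.mem_range]; exact ⟨hi0, hi0B⟩)⟩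
      obtain ⟨iq, hiq, hiqB⟩ := PD_T_pos.1 (hne q le_rfl)
      have hlast : v q iq ∈ N (q - 1) (r - 1) := by
        have hsub : N (q - 1) (r - 1) ⊆ (Finset.range r).image (v q) := by
          intro w hw
          rcases hL.N_sub (q - 1) (by omega) (r - 1) (by omega) w hw with
            ⟨i', hi', hlt, -⟩ | ⟨i', hi', rfl⟩
          · omega
          · have : q - 1 + 1 = q := by omega
            rw [this]
            exact Finset.mem_image_of_mem _ (Finset.mem_range.2 hi')
        have heq : N (q - 1) (r - 1) = (Finset.range r).image (v q) := by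
          refine Finset.eq_of_subset_of_card_le hsub ?_
          rw [hL.N_card (q - 1) (by omega) (r - 1) (by omega)]
          exact Finset.card_image_le.trans (by rw [Finset.card_range])
        rw [heq]
        exact Finset.mem_image_of_mem _ (Finset.mem_range.2 hiq)
      have hc0 := hcount 0
      have hsum : 2 * p + (q - p) ≤ ∑ a ∈ Finset.Ico 0 q, PD_T r v B' a := by
        rw [← Finset.sum_Ico_consecutive _ (Nat.zero_le p) hpq.le]
        refine Nat.add_le_add ?_ ?_
        · calc 2 * p = ∑ _a ∈ Finset.Ico 0 p, 2 := by simp [mul_comm]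
            _ ≤ ∑ a ∈ Finset.Ico 0 p, PD_T r v B' a := by
              refine Finset.sum_le_sum fun a ha => ?_
              rw [Finset.mem_Ico] at ha
              exact h2a a (by omega)
        · calc q - p = ∑ _a ∈ Finset.Ico p q, 1 := by simp
            _ ≤ ∑ a ∈ Finset.Ico p q, PD_T r v B' a := by
              refine Finset.sum_le_sum fun a ha => ?_
              rw [Finset.mem_Ico] at ha
              exact hne a (by omega)
      refine close 0 (by omega) W hW1 hWne ?_ ?_
      · have h5 : r * (r - 1) ≤ r ^ 2 := by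
          rw [← hr2]
          exact Nat.mul_le_mul_left _ (by omega)
        omega
      · refine PDr r M p q 0 hr (by omega) hpq hq S S' v c N hL hM hL' B' hB'V hB'.viol W hW1
          ?_ ∅ (Finset.empty_subset _) ?_ ∅ (Finset.empty_subset _) (Finset.empty_subset _) ?_
          le_rfl
        · intro i hi hiB
          exact hW2 i (by rw [Finset.mem_filter, Finset.mem_range]; exact ⟨hi, hiB⟩)
        · intro j' i' _ hj'q hi' hWm _
          by_cases hlast' : v j' i' = v (q - 1) (r - 1)
          · obtain ⟨e1, e2⟩ := hL.v_inj j' (by omega) i' hi' (q - 1) (by omega) (r - 1) (by omega)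
              hlast'
            rw [e1, e2]
            exact ⟨v q iq, hlast, Or.inr ⟨iq, hiq, rfl, hiqB⟩⟩
          · obtain ⟨w, hw, hwW⟩ := hW4 j' i' hj'q hi' hWm hlast'
            exact ⟨w, hw, Or.inl hwW⟩
        · intro j' i' _ _ _ hm
          exact absurd hm (Finset.notMem_empty _)
    · -- case 2b
      push Not at h2a
      obtain ⟨a1, ha1p, ha1⟩ := h2a
      have ha1' : PD_T r v B' a1 = 1 := by
        have := hne a1 (by omega)
        omega
      obtain ⟨j, hjp, hj1, hjmax⟩ : ∃ j ≤ p, PD_T r v B' j = 1 ∧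
          ∀ a, j < a → a ≤ p → PD_T r v B' a ≠ 1 := by
        refine ⟨Nat.findGreatest (fun a => PD_T r v B' a = 1) p, Nat.findGreatest_le _,
          Nat.findGreatest_spec (P := fun a => PD_T r v B' a = 1) ha1p ha1', ?_⟩
        intro a h1 h2
        exact Nat.findGreatest_is_greatest (P := fun a => PD_T r v B' a = 1) h1 h2
      obtain ⟨i, hi, hiB, hiu⟩ := PD_T_one hj1
      have hcj := hcount j
      have hge : q - j ≤ ∑ a ∈ Finset.Ico j q, PD_T r v B' a := by
        calc q - j = ∑ _a ∈ Finset.Ico j q, 1 := by simp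
          _ ≤ ∑ a ∈ Finset.Ico j q, PD_T r v B' a := by
            refine Finset.sum_le_sum fun a ha => ?_
            rw [Finset.mem_Ico] at ha
            exact hne a (by omega)
      -- use of the routing property
      have route : ∀ τ < r, v q τ ∈ B' →
          (q - j) + (if i < τ then 1 else 0) ≤ (B' ∩ segm r v j q).card → False := by
        intro τ hτ hτB hcard
        obtain ⟨W, hW1, hW2, hW3⟩ := hR j hjp i hi τ hτ
        have hWs : W ⊆ segm r v j q := by
          intro x hx
          obtain ⟨j', i', h1, h2, h3, h4, -⟩ := hW3 x hx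
          exact PD_mem_segm.2 ⟨j', i', h1, h2, h3, h4⟩
        refine close j hjp W hWs ⟨_, hW1⟩ (hW2.trans hcard) ?_
        refine PDr r M p q j hr hjp hpq hq S S' v c N hL hM hL' B' hB'V hB'.viol W hWs
          ?_ ∅ (Finset.empty_subset _) ?_ ∅ (Finset.empty_subset _) (Finset.empty_subset _) ?_
          le_rfl
        · intro i' hi' hB
          rw [hiu i' hi' hB]; exact hW1
        · intro j' i' hjj' hj'q hi' hWm _
          obtain ⟨j'', i'', h1, h2, h3, h4, w, hw, hw'⟩ := hW3 _ hWm
          obtain ⟨e1, e2⟩ := hL.v_inj j' (by omega) i' hi' j'' (by omega) i'' h3 h4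
          rw [e1, e2]
          refine ⟨w, hw, ?_⟩
          rcases hw' with hw' | hw'
          · exact Or.inl hw'
          · exact Or.inr ⟨τ, hτ, hw', by rw [hw']; exact hτB⟩
        · intro j' i' _ _ _ hm
          exact absurd hm (Finset.notMem_empty _)
      obtain ⟨τ, hτ, hτB⟩ := PD_T_pos.1 (hne q le_rfl)
      by_cases hα : ∃ τ ≤ i, v q τ ∈ B'
      · obtain ⟨τ', hτ', hτ'B⟩ := hα
        refine route τ' (by omega) hτ'B ?_
        rw [if_neg (by omega)]
        omega
      · push Not at hα
        by_cases hbig : ∃ a, j ≤ a ∧ a < q ∧ 2 ≤ PD_T r v B' a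
        · obtain ⟨a, hja, haq, ha2⟩ := hbig
          have hgt : q - j + 1 ≤ ∑ a ∈ Finset.Ico j q, PD_T r v B' a := by
            calc q - j + 1 = (∑ _a ∈ Finset.Ico j q, 1) + 1 := by simp
              _ ≤ ∑ a ∈ Finset.Ico j q, PD_T r v B' a := by
                refine Nat.succ_le_of_lt (Finset.sum_lt_sum ?_ ⟨a, ?_, ?_⟩)
                · intro b hb
                  rw [Finset.mem_Ico] at hb
                  exact hne b (by omega)
                · rw [Finset.mem_Ico]; exact ⟨hja, haq⟩
                · omega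
          refine route τ hτ hτB ?_
          split_ifs <;> omega
        · push Not at hbig
          have hjp' : j = p := by
            by_contra hne'
            have h3 := hjmax p (by omega) le_rfl
            have h4 := hne p (by omega)
            have h5 := hbig p hjp hpq
            omega
          subst hjp'
          have hone : ∀ a, j ≤ a ∧ a < q → ∃ i, i < r ∧ v a i ∈ B' ∧
              ∀ i' < r, v a i' ∈ B' → i' = i := by
            rintro a ⟨h1, h2⟩
            refine PD_T_one ?_
            have h4 := hne a (by omega)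
            have h5 := hbig a h1 h2
            omega
          choose! idx hidx using hone
          have hidxj : idx j = i := (hiu _ (hidx j ⟨le_rfl, hpq⟩).1 (hidx j ⟨le_rfl, hpq⟩).2.1)
          obtain ⟨a, haj, haq, hdead⟩ : ∃ a, j ≤ a ∧ a < q ∧ ∀ w ∈ PN r v a (idx a), w ∉ B' := by
            by_contra hno
            push Not at hno
            have hstep : ∀ a, j ≤ a → a < q → ∃ i'', i'' ≤ idx a ∧ v (a + 1) i'' ∈ B' := by
              intro a h1 h2
              obtain ⟨w, hw, hwB⟩ := hno a h1 h2
              rcases PD_mem_PN hw with ⟨i'', h3, h4, rfl⟩ | ⟨i'', h3, rfl⟩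
              · have := (hidx a ⟨h1, h2⟩).2.2 i'' h4 hwB
                omega
              · exact ⟨i'', h3, hwB⟩
            have hmono : ∀ n, j + n < q → idx (j + n) ≤ i := by
              intro n
              induction n with
              | zero => intro _; rw [Nat.add_zero, hidxj]
              | succ n ih =>
                intro hn
                obtain ⟨i'', h1, h2⟩ := hstep (j + n) (by omega) (by omega)
                have h3 := ih (by omega)
                have h4 := (hidx (j + n) ⟨by omega, by omega⟩).1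
                have h5 := (hidx (j + n + 1) ⟨by omega, by omega⟩).2.2 i'' (by omega) h2
                have h6 : j + (n + 1) = j + n + 1 := by omega
                rw [h6, ← h5]
                omega
            obtain ⟨i'', h1, h2⟩ := hstep (q - 1) (by omega) (by omega)
            have h3 := hmono (q - 1 - j) (by omega)
            have h4 : j + (q - 1 - j) = q - 1 := by omega
            have h5 : q - 1 + 1 = q := by omega
            rw [h4] at h3
            rw [h5] at h2
            exact hα i'' (by omega) h2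
          have hia := hidx a ⟨haj, haq⟩
          have hWs : ({v j i} : Finset α) ⊆ segm r v j q := by
            rw [Finset.singleton_subset_iff]
            exact PD_mem_segm.2 ⟨j, i, le_rfl, hpq, hi, rfl⟩
          refine close j le_rfl {v j i} hWs (Finset.singleton_nonempty _) ?_ ?_
          · rw [Finset.card_singleton]; omega
          · refine PDr r M j q j hr le_rfl hpq hq S S' v c N hL hM hL' B' hB'V hB'.viol {v j i} hWs
              ?_ {v j i} (Finset.Subset.refl _) ?_ {v a (idx a)} ?_ ?_ ?_ ?_
            · intro i' hi' hB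
              rw [hiu i' hi' hB]; exact Finset.mem_singleton_self _
            · intro j' i' _ _ _ hm hnm
              exact absurd hm hnm
            · rw [Finset.singleton_subset_iff]; exact hia.2.1
            · rw [Finset.singleton_subset_iff]
              exact PD_mem_segm.2 ⟨a, idx a, haj, haq, hia.1, rfl⟩
            · intro j' i' _ hj'q hi' hm w hw
              rw [Finset.mem_singleton] at hm
              obtain ⟨e1, e2⟩ := hL.v_inj j' (by omega) i' hi' a (by omega) (idx a) hia.1 hm
              rw [e1, e2, if_pos ⟨haj, haq⟩] at hw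
              exact hdead w hw
            · rw [Finset.card_singleton, Finset.card_singleton]

end Pool.Agent.helper19.AR
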