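import Pool.Agent.helper19.AR.Defs2
import Pool.Agent.helper26.AR.SMc
import Pool.Agent.helper26.AR.SMs
import Pool.Agent.helper13.AR.PC

/-! AR project (MP_962e14_co), module SM: existence of a layered strand. -/

namespace Pool.Agent.helper19.AR

theorem SM (r M : ℕ) (hr : 2 ≤ r) : ∃ n0 : ℕ, ∀ (α β : Type)
    [DecidableEq α] [DecidableEq β] (S : Sys α β) (ℓ : ℕ), CE r S ℓ → n0 ≤ S.V.card →
    ∃ (v : ℕ → ℕ → α) (c : ℕ → ℕ → β) (N : ℕ → ℕ → Finset α), Lay r M S v c N := by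
  have hK : 1 ≤ 100 * r ^ 4 * (M + 1) := by
    have : 0 < r := by omega
    exact Nat.succ_le_of_lt (by positivity)
  set K := 100 * r ^ 4 * (M + 1) with hKdef
  have hT : 1 ≤ K * (4 * K + 1) := Nat.succ_le_of_lt (Nat.mul_pos hK (by omega))
  obtain ⟨n0, h⟩ := PC r K (K * (4 * K + 1)) hr hK hT
  refine ⟨n0, ?_⟩
  intro α β _ _ S ℓ hCE hn
  obtain ⟨hG, hS, hℓ⟩ := hCE
  obtain ⟨Z, R, st, out, rk, Y, d, Ec, hC, hTZ, hP, hd⟩ := h α β S ℓ hG hS hℓ hn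
  obtain ⟨y, hy, a, ha, had, hlay⟩ := SMc r M K hr hKdef S ℓ hG hℓ Z R st out rk Y d Ec hC hTZ hP hd
  exact SMs r M K hr S hG Z R st out rk Y d Ec hC hP y hy a ha had hlay

end Pool.Agent.helper19.AR
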