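import Pool.Agent.helper19.AR.Defs2
import Pool.Agent.helper97.AR.RD1

/-! AR project (MP_962e14_co), module RD: reduction to a bounded number of vertices outside of the
strand. -/

namespace Pool.Agent.helper19.AR

theorem RD (r : ℕ) (hr : 2 ≤ r) : ∃ n1 : ℕ, ∀ (N0 : ℕ), 3 ≤ N0 → ∀ (α β : Type)
    [DecidableEq α] [DecidableEq β] (S : Sys α β) (ℓ : ℕ) (u : ℕ → α) (c : ℕ → β),
    CE r S ℓ → Perf r (r * N0) S u c →
    ∃ (S' : Sys α β) (ℓ' : ℕ), CE r S' ℓ' ∧ Perf r (r * N0) S' u c ∧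
      S'.V.card < r * N0 + n1 := by
  obtain ⟨n1, h⟩ := RD1 r hr
  refine ⟨n1, ?_⟩
  intro N0 hN0 α β _ _ S
  induction hn : S.V.card using Nat.strong_induction_on generalizing S with
  | _ n ih =>
    intro ℓ u c hCE hP
    by_cases hlt : S.V.card < r * N0 + n1
    · exact ⟨S, ℓ, hCE, hP, hlt⟩
    · obtain ⟨S', ℓ', hCE', hP', hlt'⟩ := h N0 hN0 α β S ℓ u c hCE hP (by omega)
      exact ih S'.V.card (by omega) S' rfl ℓ' u c hCE' hP'

end Pool.Agent.helper19.AR
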